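import Mathlib
import Pool.Agent.Q65.DENS
import Pool.Agent.Y114.RM.All3

/-!
# The motivated Mumford-Tate conjecture at 100 percent of the primes `ℓ`, for groups of any type

Let `M i` be finitely many objects of André's category of motives over a number field or a finitely
generated field `k` of characteristic zero, `M` their direct sum, and `ρ ℓ i` the action of the Galois
group of `k` on the `ℓ`-adic realization `ℚ_ℓ ^ (N i)` of `M i`, for all primes `ℓ`.  The representations
come from a profinite group `Γ` (the Galois group of `k` or the fundamental group of a model); if `k` is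
not a number field, a closed point of the generic fibre of the model gives a homomorphism `s` from the
Galois group of a number field `K` to `Γ` (if `k = K` is a number field `s` is the identity).  At the
places `v` of `K` outside of a finite set `S` the geometric Frobenius elements have characteristic
polynomials `P i v` with rational coefficients, independent of `ℓ`.  Let `𝔤 ℓ` be the Lie algebra (over
`ℚ_ℓ`) of the motivic Galois group of `M` over the algebraic closure of `k`.  The property `Motivic`
(structure `IsMotivic`) states what is used about it: it is a Lie algebra, it respects the direct sum,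
it is reductive (trace form nondegenerate, completely reducible), it consists of all endomorphisms
which kill the tensors killed by `𝔤 ℓ`, and these tensors are Tate tensors (motivated classes are
Tate classes).  A number field `E i`, Galois over `ℚ` (`E i = ℚ` is allowed), acts on `M i`, so that the
realizations are free of rank `n i` over `E i ⊗ ℚ_ℓ`.

**Theorem.** Suppose that
(1) (endomorphisms) for every `i` there are finitely many places `u` of good reduction such that the
roots of `P i u` are simple and no quotient of two different roots is a root of unity, and, `F` being the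
intersection of the splitting fields of these polynomials, for every automorphism `g` of the algebraic
closure of `ℚ`, of order `f` on `E i`,
* for every `d < N i`, `d > 0`, which is not divisible by `n i * f`, there are a place `v` of this type
  and an automorphism `w` which agrees with `g` on `F` such that no set of `d` roots of `P i v` is stable
  under `w`;
* there are a place `v` of this type and an automorphism `w` which agrees with `g` on `F` such that
  `w ^ f` has a fixed point in every nonempty set of roots of `P i v` which is stable under `w` and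
  whose number of elements is divisible by `n i * f`;
(2) (independence) for `i ≠ j` there is a place `v` of good reduction such that the Frobenius
eigenvalues `x` of `M i` and `y` of `M j` at `v` satisfy `x ^ m ≠ y ^ m` for all `m > 0`;
(3) (one maximal torus) at ONE place `v₀` of good reduction there are `r` multiplicatively independent
numbers among the Frobenius eigenvalues of the `M i`, and the rank of the motivic group is at most `r`
(some element of `𝔤 ℓ` has a centralizer of dimension at most `r`).
Then for all prime numbers `ℓ` outside of a set of natural density zero the `ℓ`-adic realization of `M`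
is a semisimple representation of every subgroup of finite index, and the Tate tensors on it are
exactly the tensors killed by `𝔤 ℓ`: all Tate classes in all tensor constructions (of all degrees,
over all finite extensions of `k`) are combinations of motivated classes, that is
`𝒢(r_ℓ(M))° = G_mot(M)_{ℚ_ℓ}°`.

The hypotheses are conditions on finitely many Frobenius polynomials and the rank.  There is no
condition on the type of the motivic group (it can be an exceptional group, a spin group or an exterior
power representation, or have factors of different types), on Hodge numbers, on polarizations, or on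
the reduction at other places, and neither semisimplicity nor anything else is assumed at single
primes `ℓ`.  In the known results of this kind the group is symplectic, orthogonal or unitary in
its standard representation, or one has regular unipotent elements.

Idea of the proof.  By the theorem on endomorphisms at 100 percent of the primes (library
`Pool.Agent.Y142.SI`) every open subgroup acts semisimply, with commutant `E i ⊗ ℚ_ℓ`, on the
realization of `M i`, for 100 percent of the `ℓ`; by (2) the same follows for `M`.  Let `L` be the Lie
algebra of the endomorphisms which kill all Tate tensors and preserve the subspaces stable under open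
subgroups.  The torus `t` of the Frobenius element at `v₀` is contained in `L ⊗ ℂ`, and it is its own
centralizer in `𝔤 ⊗ ℂ`, so both are sums of one-dimensional root spaces.  (a) The radical of the
trace form of `L` is zero: no sum of its roots is zero, so it kills a nonzero vector in every stable
subspace, while the space of the vectors killed by it is stable under the Galois group and has a stable
complement.  (b) The weights of `V` modulo the group generated by the roots of `L` give
endomorphisms which commute with `L`; a subgroup of finite index commutes with them, so they commute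
with `𝔤`, and all roots of `𝔤` are sums of roots of `L`.  (c) If a root `α` is such a sum there is a
summand `β` such that `α` is positive on the coroot of `β`, `α - β` is a root or zero and a sum of fewer
roots, and `L` contains the root space of `α` because it is stable under the `sl₂` of `β`.
-/

set_option autoImplicit false

namespace Pool.Agent.Results.MP_b8862a_ag.AnyGroupDensityOne

open NumberField IsDedekindDomain Polynomial Module Filter Topology Pool.Agent.Y114.RM

/-- the absolute Galois group of `K`, with its profinite (Krull) topology -/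
abbrev AbsoluteGaloisGroup (K : Type) [Field K] : Type := Gal(AlgebraicClosure K/K)

/-- `σ` is an (arithmetic) Frobenius element at the prime `v` of the number field `K`: for some prime
`Q` of the algebraic closure above `v` it acts on the residue field as `x ↦ x ^ N(v)` -/
def IsFrobenius {K : Type} [Field K] [NumberField K] (v : HeightOneSpectrum (𝓞 K))
    (σ : AbsoluteGaloisGroup K) : Prop :=
  ∃ Q : Ideal (𝓞 (AlgebraicClosure K)), Q.IsMaximal ∧
    Q.comap (algebraMap (𝓞 K) (𝓞 (AlgebraicClosure K))) = v.asIdeal ∧
    ∀ x : 𝓞 (AlgebraicClosure K), σ • x - x ^ Ideal.absNorm v.asIdeal ∈ Q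

/-- the roots of `P v` are simple, and different roots have different `n`-th powers for all `n > 0` -/
def IsRegularPlace {K : Type} [Field K] [NumberField K]
    (S : Set (HeightOneSpectrum (𝓞 K))) (P : HeightOneSpectrum (𝓞 K) → ℚ[X])
    (v : HeightOneSpectrum (𝓞 K)) : Prop :=
  v ∉ S ∧ (P v).Separable ∧ ∀ n : ℕ, 0 < n → ∀ x y : ℂ,
    aeval x (P v) = 0 → aeval y (P v) = 0 → x ^ n = y ^ n → x = y

/-- the splitting field of `Q` in the algebraic closure of `ℚ` -/
noncomputable def splittingField (Q : ℚ[X]) : Set (AlgebraicClosure ℚ) :=
  (IntermediateField.adjoin ℚ {x : AlgebraicClosure ℚ | aeval x Q = 0} :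
    IntermediateField ℚ (AlgebraicClosure ℚ))

/-- the order of the restriction of `g` to the (finite, normal) field `E` -/
noncomputable def orderOn (E : IntermediateField ℚ (AlgebraicClosure ℚ))
    (g : AbsoluteGaloisGroup ℚ) : ℕ :=
  sInf {k : ℕ | 0 < k ∧ ∀ a ∈ E, (g ^ k) a = a}

/-- `T` is a set of roots of `Q` which is stable under `w` -/
def IsStableSet (w : AbsoluteGaloisGroup ℚ) (Q : ℚ[X]) (T : Set (AlgebraicClosure ℚ)) : Prop :=
  (∀ x ∈ T, aeval x Q = 0) ∧ ∀ x ∈ T, w x ∈ T

/-- condition (1): there are finitely many regular places `u` such that, `F` denoting the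
intersection of the splitting fields of the polynomials `P u`, for every automorphism `g`
* for every `d < N`, `d > 0`, which is not divisible by `n` times the order of `g` on `E` there are a
  regular place `v` and an automorphism `w` which agrees with `g` on `F` such that no set of `d`
  roots of `P v` is stable under `w`; and
* there are a regular place `v` and an automorphism `w` which agrees with `g` on `F` such that the
  power of `w` with its order on `E` as exponent has a fixed point in every nonempty set of roots of
  `P v` which is stable under `w` and whose number of elements is divisible by `n` times this order -/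
def EndomorphismCondition {K : Type} [Field K] [NumberField K]
    (S : Set (HeightOneSpectrum (𝓞 K))) (P : HeightOneSpectrum (𝓞 K) → ℚ[X])
    (E : IntermediateField ℚ (AlgebraicClosure ℚ)) (n N : ℕ) : Prop :=
  ∃ (m : ℕ) (u : Fin (m + 1) → HeightOneSpectrum (𝓞 K)), (∀ i, IsRegularPlace S P (u i)) ∧
    ∀ g : AbsoluteGaloisGroup ℚ,
      (∀ d : ℕ, 0 < d → d < N → ¬ n * orderOn E g ∣ d →
        ∃ (v : HeightOneSpectrum (𝓞 K)) (w : AbsoluteGaloisGroup ℚ), IsRegularPlace S P v ∧
          (∀ x, (∀ i, x ∈ splittingField (P (u i))) → w x = g x) ∧
          ∀ T, IsStableSet w (P v) T → T.ncard ≠ d) ∧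
      ∃ (v : HeightOneSpectrum (𝓞 K)) (w : AbsoluteGaloisGroup ℚ), IsRegularPlace S P v ∧
        (∀ x, (∀ i, x ∈ splittingField (P (u i))) → w x = g x) ∧
        ∀ T, IsStableSet w (P v) T → T.Nonempty → n * orderOn E w ∣ T.ncard →
          ∃ x ∈ T, (w ^ orderOn E w) x = x

/-- condition (2) for two summands: at some place outside of `S` the roots `x` and `y` of the two
polynomials satisfy `x ^ m ≠ y ^ m` for all `m > 0` -/
def AreSeparated {K : Type} [Field K] [NumberField K] (S : Set (HeightOneSpectrum (𝓞 K)))
    (P Q : HeightOneSpectrum (𝓞 K) → ℚ[X]) : Prop :=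
  ∃ v ∉ S, ∀ m : ℕ, 0 < m → ∀ x y : ℂ, aeval x (P v) = 0 → aeval y (Q v) = 0 → x ^ m ≠ y ^ m

/-- the set `A` of prime numbers has natural density zero -/
def HasDensityZero (A : Set ℕ) : Prop :=
  Tendsto (fun n : ℕ => (Nat.card {ℓ : ℕ // ℓ ≤ n ∧ ℓ ∈ A} : ℝ) / (Nat.primeCounting n : ℝ))
    atTop (𝓝 0)

section general

variable {k Γ W : Type} [Field k] [Group Γ] [AddCommGroup W] [Module k W]

/-- the trace of `c` is `n` times the trace of `a` over `ℚ` -/
def HasTrace (c : End k W) (n : ℕ) {E : Type} [Field E] [Algebra ℚ E] (a : E) : Prop :=
  LinearMap.trace k W c = n * ((Algebra.trace ℚ E a : ℚ) : k)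

/-- the endomorphism `c` commutes with `Γ` and with `A` -/
def CommutesWith (ρ : Representation k Γ W) (A : Submodule k (End k W)) (c : End k W) : Prop :=
  (∀ γ, Commute c (ρ γ)) ∧ ∀ X ∈ A, Commute X c

/-- the field `E` acts on `W`, commuting with `Γ` and with `A`, so that the trace of every `a ∈ E` is
`n` times its trace over `ℚ` -/
def ActsOn (ρ : Representation k Γ W) (A : Submodule k (End k W)) (n : ℕ) (E : Type) [Field E]
    [Algebra ℚ E] : Prop :=
  ∃ ε : E →+* End k W, ∀ a, HasTrace (ε a) n a ∧ CommutesWith ρ A (ε a)

end general

section system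

variable {K : Type} [Field K] [NumberField K] {Γ : Type} [Group Γ] [TopologicalSpace Γ]
  {ι : Type} [DecidableEq ι] {N : ι → ℕ}

/-- the representations are continuous, and (the images under `s` of) the geometric Frobenius elements
`σ⁻¹` (`σ` arithmetic) at the places `v ∉ S` prime to `ℓ` have the characteristic polynomials `P i v` -/
def IsSystem (s : AbsoluteGaloisGroup K →* Γ) (S : Set (HeightOneSpectrum (𝓞 K)))
    (P : ι → HeightOneSpectrum (𝓞 K) → ℚ[X])
    (ρ : ∀ (ℓ : ℕ) [Fact ℓ.Prime], Reps Γ N ℓ) : Prop :=
  ∀ (ℓ : ℕ) [Fact ℓ.Prime], Conts (ρ ℓ) ∧ ∀ i, ∀ v ∉ S, (ℓ : 𝓞 K) ∉ v.asIdeal →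
    ∀ σ : AbsoluteGaloisGroup K, IsFrobenius v σ → HasPoly (ρ ℓ) i (s σ⁻¹) (P i v)

/-- the field `E` acts on the `i`-th summand as in `ActsOn`, commuting with `Γ` and with the image of
the Lie algebra `𝔤` -/
def HasCoefficientsAt {ℓ : ℕ} [Fact ℓ.Prime] (ρ : Reps Γ N ℓ) (𝔤 : EndSpace N ℓ) (i : ι) (n : ℕ)
    (E : Type) [Field E] [Algebra ℚ E] : Prop :=
  ActsOn (k := ℚ_[ℓ]) (W := Fin (N i) → ℚ_[ℓ]) (ρ i)
    (imageIn (k := ℚ_[ℓ]) (V := fun i => Fin (N i) → ℚ_[ℓ]) 𝔤 i) n E

/-- the number field `E` acts on the `i`-th summands for all `ℓ`, commuting with `Γ` and with the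
images of the Lie algebras `𝔤 ℓ`, and the summands are free of rank `n` over `E ⊗ ℚ_ℓ` (their
dimension is `n * [E : ℚ]` and the trace of every `a ∈ E` is `n` times its trace over `ℚ`) -/
def HasCoefficients (ρ : ∀ (ℓ : ℕ) [Fact ℓ.Prime], Reps Γ N ℓ)
    (𝔤 : ∀ (ℓ : ℕ) [Fact ℓ.Prime], EndSpace N ℓ) (i : ι)
    (E : IntermediateField ℚ (AlgebraicClosure ℚ)) (n : ℕ) : Prop :=
  0 < n ∧ N i = n * Module.finrank ℚ E ∧
    ∀ (ℓ : ℕ) [Fact ℓ.Prime], HasCoefficientsAt (ρ ℓ) (𝔤 ℓ) i n E

/-- condition (3): at some place `v ∉ S` there are `r` multiplicatively independent numbers among the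
roots of the polynomials `P i v`, and the ranks of the Lie algebras `𝔤 ℓ` are at most `r` -/
def HasMaximalTorus (S : Set (HeightOneSpectrum (𝓞 K))) (P : ι → HeightOneSpectrum (𝓞 K) → ℚ[X])
    (𝔤 : ∀ (ℓ : ℕ) [Fact ℓ.Prime], EndSpace N ℓ) : Prop :=
  ∃ v ∉ S, ∃ r, IndepRoots r (Set.range fun i => P i v) ∧
    ∀ (ℓ : ℕ) [Fact ℓ.Prime], RankLE (𝔤 ℓ) r

end system

/-- **The motivated Mumford-Tate conjecture at 100 percent of the primes, for groups of any type.** -/
theorem result (K : Type) [Field K] [NumberField K] (Γ : Type) [Group Γ] [TopologicalSpace Γ]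
    [IsTopologicalGroup Γ] [CompactSpace Γ] (s : AbsoluteGaloisGroup K →* Γ) (hs : Continuous s)
    -- the realizations
    (ι : Type) [Fintype ι] [DecidableEq ι] (N : ι → ℕ)
    (S : Set (HeightOneSpectrum (𝓞 K))) (hS : S.Finite)
    (P : ι → HeightOneSpectrum (𝓞 K) → ℚ[X])
    (ρ : ∀ (ℓ : ℕ) [Fact ℓ.Prime], Reps Γ N ℓ) (hρ : IsSystem s S P ρ)
    -- the Lie algebras of the motivic Galois group
    (𝔤 : ∀ (ℓ : ℕ) [Fact ℓ.Prime], EndSpace N ℓ)
    (h𝔤 : ∀ (ℓ : ℕ) [Fact ℓ.Prime], Motivic (ρ ℓ) (𝔤 ℓ))
    -- the coefficients
    (E : ι → IntermediateField ℚ (AlgebraicClosure ℚ)) [∀ i, FiniteDimensional ℚ (E i)]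
    [∀ i, Normal ℚ (E i)] (n : ι → ℕ) (hE : ∀ i, HasCoefficients ρ 𝔤 i (E i) (n i))
    -- the conditions (1), (2) and (3)
    (h1 : ∀ i, EndomorphismCondition S (P i) (E i) (n i) (N i))
    (h2 : ∀ i j, i ≠ j → AreSeparated S (P i) (P j))
    (h3 : HasMaximalTorus S P 𝔤) :
    HasDensityZero {ℓ | ∃ _ : Fact ℓ.Prime,
      ¬ (Semisimple (ρ ℓ) ∧ TateTensorsOf (ρ ℓ) (𝔤 ℓ))} := by
  obtain ⟨v₀, hv₀, r, hr, hrank⟩ := h3
  have h4 := fun i => (hE i).2.2
  choose ε hε using h4
  exact Pool.Agent.Q65.KL.density_main inputs inputs2 s hs N S hS P ρ (fun ℓ _ => (hρ ℓ).1)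
    (fun ℓ _ => (hρ ℓ).2) E n (fun i => (hE i).1) (fun i => (hE i).2.1) (fun ℓ _ i => ε i ℓ)
    (fun ℓ _ i a γ => (hε i ℓ a).2.1 γ) (fun ℓ _ i a => (hε i ℓ a).1) h1 h2 𝔤 h𝔤
    (fun ℓ _ i a _ hX => (hε i ℓ a).2.2 _ (Submodule.mem_map_of_mem hX)) v₀ hv₀ r
    (independentRoots_range hr) hrank

end Pool.Agent.Results.MP_b8862a_ag.AnyGroupDensityOne
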