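import Pool.Agent.Q67.TN.Final

/-!
# MP_b8862a_ag: motivated classes, Hodge classes and Tate classes on all powers of a variety are
determined on the fourth power
-/

set_option autoImplicit false

open CategoryTheory AlgebraicGeometry

universe u

namespace Pool.Agent.Results.MP_b8862a_ag.FourthPowerMumfordTate

open Pool.Agent.H914
open Pool.Agent.Y133.Half (pw)
open Pool.Agent.Q67.TN
open Pool.Agent.Q67.TG.F (IsPolarisation)

/-- Let `S` consist of a Hodge theory `S.T` (a Weil cohomology theory with rational coefficients and
a Hodge decomposition of its cohomology with complex coefficients) and of a field `L` between the
rational and the complex numbers (for instance `ℚ_ℓ`, with an embedding in `ℂ`). Let `C` be a system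
of classes: a set of rational Hodge classes on every variety which contains the classes of algebraic
cycles and is stable under products, pull-backs and push-forwards; in the intended case `C` is the
system of the motivated classes of André. Let `D` be a family of derivations of the cohomology with
coefficients in `L` which preserve degrees, commute with pull-backs and kill traces and the classes
in `C`. In the intended case `k` is an algebraic closure of a finitely generated field `F` of
characteristic zero and `D` is the Lie algebra of the image of the absolute Galois group of `F`,
acting on `H^i(X, ℚ_ℓ(i/2))`; then the classes of degree `2 j` killed by `D` are the Tate classes.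

Let `u` be a polarisation of the cohomology of `X` which is given by classes in `C`, let the
projector onto the cohomology of odd degree be given by classes in `C` (both hold for the motivated
classes) and let the cohomology of `X × X` be semisimple under `D`. Then there are `NH` and `NT` in
`{1, 2, 3, ..., ∞}`, for the Hodge classes and for the Tate classes (`R` stands for the Hodge,
respectively Tate classes, and `N` for `NH`, respectively `NT`), such that

* the quotients of the dimensions of the spaces spanned by `R` and by `C` on the product of `n + 1`
  copies of `X` converge to `N`;
* `N = 1` if and only if all classes of `R` on all powers of `X` are combinations of classes in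
  `C`; if `N ≠ 1`, asymptotically at most one half of the classes of `R` on the powers of `X` are in
  the span of `C`; if `N` is finite, `N - 1` classes generate all classes of `R` on all powers over
  `C`;
* `N` is finite if and only if every operator `A` on the cohomology of `X` which kills, as a
  derivation, the classes in `C` on all powers of `X`, kills `R` on all powers (the Lie algebra of
  the motivic Galois group of `X` is the Lie algebra of the Mumford-Tate group, respectively of the
  `ℓ`-adic monodromy group); and if and only if every such `A` kills `R` on `X^4` and every such `A`
  in the centre of the algebra of the correspondences given by `R` kills `R` on all powers;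
* `N` is finite if all classes of `R` on `X^4` are combinations of classes in `C` and no nonzero
  element of the centre of the algebra of the correspondences given by `C` is skew-symmetric;
* if `NH` is finite, all Hodge classes on all powers of `X` are Tate classes, and `NH ≤ NT`; if
  `NT` is finite, all Tate classes on all powers of `X` are linear combinations of Hodge classes,
  and `NT ≤ NH`. If both are finite they are equal and the Tate classes on the powers of `X` are
  the linear combinations of the Hodge classes: the Mumford-Tate conjecture for `X`. -/
theorem result {k : Type u} [Field k] {𝒱 : VarClass k} {ops : CycleOps 𝒱} (S : Theory ops)
    (C : Classes S) (hC : IsSystem C) (D : Action S) (hD : Infinitesimal C D) (X : 𝒱.Obj)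
    [Nontrivial (RH S X)] (u : Pool.Agent.Q67.TG.F.Opr S.T X) (hu : IsRatOp C X u)
    (hpol : IsPolarisation S.T X u) (hodd : OddIn C X) (hss : Semisimple D (X.prod X)) :
    ∃ NH NT : ℕ∞, Law (hodge S) C X NH ∧ Law (tate D) C X NT ∧
      (NH ≠ ⊤ → NH ≤ NT ∧ ∀ n, In (hodge S) (tate D) (pw X n)) ∧
      (NT ≠ ⊤ → NT ≤ NH ∧ ∀ n, In (tate D) (hodge S) (pw X n)) :=
  mumford_tate_law S C hC D hD X u hu hpol hodd hss

end Pool.Agent.Results.MP_b8862a_ag.FourthPowerMumfordTate
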