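import Mathlib
import Pool.Agent.TH118.MT.Main
import Pool.Agent.TH118.IS.Four

/-!
# The motivated Mumford-Tate conjecture for abelian varieties of any type with isolated finite inertia

Let `A` be an abelian variety over a finitely generated field of complex numbers, `W = H_1(A, ℚ)`
with the polarization form `ω₀`, `T` the tangent space at the origin and `per : W → T` the inclusion;
`V = ℚ_ℓ ⊗ W` is the rational Tate module, with the action `ρ` of the Galois group `Γ` and the
cyclotomic character `χ`.  Let `K` be the algebraic closure of `ℚ_ℓ` and `X = K ⊗ V`.  A subspace of
`X` is *strongly irreducible* (`SI`) if it is a minimal nonzero subspace stable under a subgroup of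
finite index.  By the theorem of André the motivated classes on the powers of `A` are the Hodge
classes, and the motivic Galois group of the motive of `A` is the Mumford-Tate group.

Hypotheses.

* `hss`, `hF`: the theorems of Faltings (semisimplicity; the endomorphisms of `V` which commute with
  an open subgroup of the Galois group are combinations of endomorphisms of `A`).
* `hcen` is the theorem that the Mumford-Tate conjecture holds for the centres of the groups
  (Vasiu, Ullmo-Yafaev).
* `hE`: `X` is the sum of strongly irreducible subspaces `E i`.
* `hiso`: for each `i` there is an element `γ` of the group (in an inertia group at a place where `A`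
  has potentially good reduction), of finite order on `X`, which preserves all `E j` and whose
  eigenvalues on `E i` are divided into two nonempty sets such that for `α` in the first and `β` in
  the second set

  * the eigenspace for `α` or the eigenspace for `β` is one-dimensional,
  * `β / α` is the quotient of no other pair of eigenvalues on `E i`,
  * there are no geometric progressions of length three with the quotient `β / α` in the set of
    eigenvalues of `γ` on any `E j`,

  and for `j ≠ i` the eigenvalues of `γ` on `E j`, with multiplicities, are not the products of those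
  on `E i` with a number.
* `hfrob`: for each `i` there is a diagonalizable element of the group (a Frobenius element) with two
  eigenvectors in `E i` such that the quotient of the eigenvalues is not a root of unity.

Theorem.  The Mumford-Tate conjecture is true for `A`: all Tate classes in all the tensor powers
`(H^1)^{⊗ 2 m}(m)` are linear combinations of Hodge classes, hence of motivated classes.  So the
identity component of the `ℓ`-adic monodromy group is the motivic Galois group of `A` (over an
algebraic closure).

This is meant for simple factors of type IV: the `E i` need not be self-dual.  Examples are the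
abelian varieties with multiplication by a CM field `F` for which an inertia group contains a
complex reflection: `γ` acts on each `E j` as a scalar times a complex reflection with an
eigenvalue `ε j` different from `1` and `-1` and from the other `ε i`; for instance Jacobians of
cyclic covers `y ^ p = f(x)` of the line (parts on which a primitive `p`-th root of unity acts) at a
place where two of the roots of `f` come together. More generally all eigenvalues of `γ` on `E i`
except one can be simple.

The main step (`iso_det`) and the descent (`mumfordTate_of_ext`) are theorems of the starting files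
which were not handed in.
-/

set_option autoImplicit false

namespace Pool.Agent.Results.MP_b8862a_ag.IsolatedInertiaRatios

open Module TensorProduct Pool.Agent.H204R3.SP Pool.Agent.H204R3.GP Pool.Agent.W522.U
open Pool.Agent.TH118.CR Pool.Agent.TH118.MT Pool.Agent.TH118.IS

/-- **The Mumford-Tate conjecture for abelian varieties of any type with elements of finite order
with isolated quotients of eigenvalues.** -/
theorem result (ℓ : ℕ) [Fact ℓ.Prime]
    -- the complex abelian variety `A` with a polarization
    {W T : Type} [AddCommGroup W] [Module ℚ W] [FiniteDimensional ℚ W] [AddCommGroup T] [Module ℂ T]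
    (per : W →+ T) (ω₀ : W →ₗ[ℚ] W →ₗ[ℚ] ℚ) (halt : ∀ v, ω₀ v v = 0)
    (hnondeg : ∀ u, (∀ v, ω₀ v u = 0) → u = 0) (hω₀ : IsHodgeBilinear per ω₀)
    -- the action of the Galois group on the Tate module
    {Γ : Type} [Group Γ] (ρ : Representation ℚ_[ℓ] Γ (ℚ_[ℓ] ⊗[ℚ] W)) (χ : Γ →* ℚ_[ℓ])
    (hω : ∀ s u v, bcb ℚ_[ℓ] ω₀ (ρ s u) (ρ s v) = χ s * bcb ℚ_[ℓ] ω₀ u v)
    -- the theorems of Faltings and the theorem on the centres
    (hss : FiniteIndexSemisimple ρ) (hF : FaltingsEnd per (incl ℚ_[ℓ] W) ρ)
    (hcen : CentreTheorem per (Pool.Agent.TH118.MT.extend (k := ℚ_[ℓ]) (AlgebraicClosure ℚ_[ℓ])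
      (incl ℚ_[ℓ] W)) (bcr ρ (AlgebraicClosure ℚ_[ℓ])) (bcc χ (AlgebraicClosure ℚ_[ℓ])))
    -- the elements of finite order and the Frobenius elements
    {I : Type} (E : I → Submodule (AlgebraicClosure ℚ_[ℓ])
      (AlgebraicClosure ℚ_[ℓ] ⊗[ℚ_[ℓ]] (ℚ_[ℓ] ⊗[ℚ] W)))
    (hE : SumOfSI (bcr ρ (AlgebraicClosure ℚ_[ℓ])) E)
    (hiso : HasIsolatedRatios (bcr ρ (AlgebraicClosure ℚ_[ℓ])) E)
    (hfrob : HasFrobenii (bcr ρ (AlgebraicClosure ℚ_[ℓ])) E) :
    MumfordTate per (incl ℚ_[ℓ] W) ρ χ := by
  refine mumfordTate_of_ext (AlgebraicClosure ℚ_[ℓ]) ω₀ halt hnondeg hω₀ hω hss hF hcen ?_
  intro ω _ _ hnd hinv hpr m φ hφ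
  exact iso_det ω hnd hinv hpr hE hiso hfrob φ hφ

end Pool.Agent.Results.MP_b8862a_ag.IsolatedInertiaRatios
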