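import Pool.Agent.Q282.UM.Pack

/-!
# MP_b8862a_ag: the motivated Mumford-Tate conjecture and trilinear forms
-/

set_option autoImplicit false

open CategoryTheory Limits AlgebraicGeometry Pool.Agent.Y116.UV Pool.Agent.Z125.UN
  Pool.Agent.Q282.UM

namespace Pool.Agent.Results.MP_b8862a_ag.TrilinearHypersurfaces

universe v u

/-- The realizations of the motives in `A`: the Betti realization `B M` with rational coefficients and
its complexification `BC M = ℂ ⊗ B M`, with the inclusion `inc` and the operators of the elements
of the Deligne torus (the element `(z, w)` acts by `z ^ (-p) * w ^ (-q)` on the part of type `(p, q)`);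
the `ℓ`-adic realization `L M`, with coefficients in `K = ℚ_ℓ`, with the operators of the elements of
the Galois group `Γ` and the comparison map `comp`, which induces an isomorphism of `K ⊗ B M` and
`L M`; and the space `mot M` of the classes in `B M` which are motivated after an extension of the
base field to its algebraic closure. -/
structure Realizations (A : Type u) [Category.{v} A] (K : Type) [Field K] (Γ : Type) where
  B : A ⥤ ModuleCat.{0} ℚ
  BC : A ⥤ ModuleCat.{0} ℂ
  inc : ∀ M : A, B.obj M →+ BC.obj M
  torus : ∀ M : A, ℂˣ × ℂˣ → (BC.obj M →ₗ[ℂ] BC.obj M)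
  L : A ⥤ ModuleCat.{0} K
  galois : ∀ M : A, Γ → (L.obj M →ₗ[K] L.obj M)
  comp : ∀ M : A, B.obj M →+ L.obj M
  mot : ∀ M : A, Submodule ℚ (B.obj M)

/-- The realizations are additive functors, and all structures are functorial. -/
structure IsRealizations {A : Type u} [Category.{v} A] [Preadditive A] {K : Type} [Field K]
    {Γ : Type} (R : Realizations A K Γ) : Prop where
  addB : R.B.Additive
  addL : R.L.Additive
  inc : NatMap R.B R.BC R.inc
  torus : NatOps R.BC R.torus
  galois : NatOps R.L R.galois
  comp : NatMap R.B R.L R.comp
  mot : NatSub R.B R.mot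

section

variable {A : Type u} [Category.{v} A] {K : Type} [Field K] {Γ : Type}

/-- `x` is a Hodge class: it is fixed by the Deligne torus. -/
def IsHodgeClass (R : Realizations A K Γ) (M : A) (x : R.B.obj M) : Prop :=
  ∀ z, R.torus M z (R.inc M x) = R.inc M x

/-- `y` is a Tate class: it is fixed by an open subgroup of the Galois group. -/
def IsTateClass [Group Γ] [TopologicalSpace Γ] (R : Realizations A K Γ) (M : A) (y : R.L.obj M) :
    Prop :=
  ∃ U : Subgroup Γ, IsOpen (U : Set Γ) ∧ ∀ g ∈ U, R.galois M g y = y

/-- The `K`-linear combinations of the motivated classes in the `ℓ`-adic realization. -/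
def motL (R : Realizations A K Γ) (M : A) : Submodule K (R.L.obj M) :=
  Submodule.span K {y | ∃ x ∈ R.mot M, y = R.comp M x}

/-- The assertion of the motivated Mumford-Tate conjecture for the classes of `M`: the Hodge classes
of `M` are motivated, the Tate classes of `M` are linear combinations of motivated classes, and
the Galois group acts semisimply on the `ℓ`-adic realization of `M`. -/
def MumfordTate [Group Γ] [TopologicalSpace Γ] (R : Realizations A K Γ) (M : A) : Prop :=
  (∀ x, IsHodgeClass R M x → x ∈ R.mot M) ∧ (∀ y, IsTateClass R M y → y ∈ motL R M) ∧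
    SemisimpleAt R.L R.galois M

end

section

variable {A : Type u} [Category.{v} A] [Abelian A] {K : Type} [Field K] {Γ : Type}
  {R : Realizations A K Γ}

lemma motL_map (hR : IsRealizations R) {M N : A} (f : M ⟶ N) (y : R.L.obj M) (hy : y ∈ motL R M) :
    (R.L.map f).hom y ∈ motL R N := by
  have h : motL R M ≤ (motL R N).comap (R.L.map f).hom := by
    refine Submodule.span_le.mpr ?_
    rintro _ ⟨x, hx, rfl⟩
    exact Submodule.subset_span ⟨(R.B.map f).hom x, hR.mot f x hx, hR.comp f x⟩
  exact h hy

lemma sumClosed_mt [Group Γ] [TopologicalSpace Γ] (hR : IsRealizations R) :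
    SumClosed (MumfordTate R) := by
  have := hR.addB
  have := hR.addL
  refine SumClosed.and ?_ (SumClosed.and ?_ (sumClosed_semisimple R.L R.galois hR.galois))
  · refine sumClosed_classes R.B (fun M => (R.mot M).toAddSubmonoid) (IsHodgeClass R)
      (fun f x hx => hR.mot f x hx) ?_
    intro M N f x hx z
    have h1 := hR.torus f z (R.inc M x)
    rw [hx z, hR.inc f x] at h1
    exact h1.symm
  · refine sumClosed_classes R.L (fun M => (motL R M).toAddSubmonoid) (IsTateClass R)
      (fun f x hx => motL_map hR f x hx) ?_
    rintro M N f x ⟨U, hU, h⟩
    refine ⟨U, hU, fun g hg => ?_⟩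
    have h1 := hR.galois f g x
    rw [h g hg] at h1
    exact h1.symm

end

/-- **The motivated Mumford-Tate conjecture and trilinear forms.** Let `A` be the category of André
motives over a field `k ⊂ ℂ` (any semisimple category of pure motives over a perfect field), with the
cohomology with compact supports `H^j(X)` with values in `A`, and with its realizations.

* For all `N`, the assertion of the conjecture is true for all motives which are direct summands of
  the `h(X)(n)`, `X` smooth projective of dimension at most `N`, if and only if it is true for all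
  direct summands of the `H^j(Y)(n)` for the cubic hypersurfaces `Y : T(x, y, z) = 1`, `T` a trilinear
  form over `k` with a block of at most `N + 2` variables.
* If all objects of `A` are direct summands of motives `h(X)(n)`, the assertion is true for all
  motives over `k` if and only if it is true for all direct summands of the `H^j(Y)(n)` for all
  cubic hypersurfaces `Y : T(x, y, z) = 1`.
* If `k = ℚ` it is enough to consider the hypersurfaces `Y : ∑_{(i, j, l) ∈ E} x_i y_j z_l = 1` for all
  finite sets `E` of triples. -/
theorem result {A : Type u} [Category.{v} A] [Abelian A] {K : Type} [Field K]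
    {Γ : Type} [Group Γ] [TopologicalSpace Γ] (R : Realizations A K Γ) (hR : IsRealizations R) :
    (∀ (k : Type) [Field k] [PerfectField k] (D : Motives k A), IsMotives D →
      (∀ N : ℕ, ForVarieties D (MumfordTate R) N ↔ ForForms D (MumfordTate R) N) ∧
      (IsGenerated D → ((∀ M : A, MumfordTate R M) ↔ ForAllForms D (MumfordTate R)))) ∧
    ∀ D : Motives ℚ A, IsMotives D → IsGenerated D →
      ((∀ M : A, MumfordTate R M) ↔ ForHypergraphs D (MumfordTate R)) :=
  ⟨fun _ _ _ _ hD => ⟨pack_dim (sumClosed_mt hR) hD, pack_all (sumClosed_mt hR) hD⟩,
    fun _ hD hg => pack_rat (sumClosed_mt hR) hD hg⟩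

end Pool.Agent.Results.MP_b8862a_ag.TrilinearHypersurfaces
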